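import Pool.Agent.Y885.KP6

/-!
# All sign patterns of the Liouville function at given positions, up to very few elements of arbitrary sets which meet
every interval `[x, l x]`
-/

set_option autoImplicit false

namespace Pool.Agent.Results.MP_4fffd4_nt.ElementsOfAnySets

open Finset

/-- The Liouville function. -/
def lam (m : ℕ) : ℤ := (-1) ^ ArithmeticFunction.cardFactors m

/-- The number of the positive integers `m ≤ X` with `λ(m + a j) = ε j` for all `j`. -/
def occ {s : ℕ} (a : Fin s → ℕ) (ε : Fin s → ℤ) (X : ℕ) : ℕ :=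
  ((Icc 1 X).filter (fun m => ∀ j, lam (m + a j) = ε j)).card

/-- For all `l ≥ 2`, `κ` and `U` there is a constant `C` such that for all `H` and `B` there is an `N₀` with the
following property. Let `N ≥ N₀` and `2 ^ s ≤ log ^ κ N`. Let `A 1, ..., A s` be arbitrary sets of integers each of
which contains an element of every interval `[x, l x]`, `x ≥ 1` (`C` and `N₀` do not depend on these sets), and let
`0 ≤ h 1, ..., h s ≤ B N` be arbitrary integers (for example `h j = j`). Then there are sets `S j` of at most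
`C (log log N) ^ 2` elements of `A j`, all between `log ^ H N` and `N / log ^ H N`, such that the sums `a j` of `h j`
and of the elements of `S j` have the following property: each of the `2 ^ s` sign patterns `ε` of length `s` occurs
with the expected frequency at the positions `m + a 1, ..., m + a s`: for all `X ≤ B N`, the number of the
`m ≤ X` with `λ(m + a j) = ε j` for all `j` differs from `X / 2 ^ s` by at most `N / log ^ U N`. -/
theorem result (l κ U : ℕ) (hl : 2 ≤ l) : ∃ C : ℝ, ∀ H B : ℕ, ∃ N₀ : ℕ, ∀ N : ℕ, N₀ ≤ N →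
    ∀ s : ℕ, (2 : ℝ) ^ s ≤ Real.log N ^ κ →
    ∀ A : Fin s → Set ℕ, (∀ j, ∀ x : ℕ, 1 ≤ x → ∃ a ∈ A j, x ≤ a ∧ a ≤ l * x) →
    ∀ h : Fin s → ℕ, (∀ j, h j ≤ B * N) →
    ∃ S : Fin s → Finset ℕ, (∀ j, ∀ a ∈ S j, a ∈ A j ∧ Real.log N ^ H ≤ a ∧ (a : ℝ) ≤ N / Real.log N ^ H) ∧
      (∀ j, ((S j).card : ℝ) ≤ C * Real.log (Real.log N) ^ 2) ∧
      ∀ ε : Fin s → ℤ, (∀ j, ε j = 1 ∨ ε j = -1) → ∀ X : ℕ, X ≤ B * N →
        |(occ (fun j => h j + ∑ a ∈ S j, a) ε X : ℝ) - X / 2 ^ s| ≤ N / Real.log N ^ U := by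
  classical
  obtain ⟨C, hC⟩ := Pool.Agent.Y885.las_kpt l 1 κ U hl le_rfl Pool.Agent.Y885.laR Pool.Agent.Y885.fine_lam
  refine ⟨C, fun H B => ?_⟩
  obtain ⟨N₀, h0⟩ := hC H B
  refine ⟨N₀ + 3, fun N hN s hs A hA h hh => ?_⟩
  have hLog1 : 1 ≤ Real.log (N : ℝ) := by
    have h3 : (3 : ℝ) ≤ N := by exact_mod_cast (by omega : 3 ≤ N)
    rw [Real.le_log_iff_exp_le (by linarith)]
    exact (Real.exp_one_lt_d9.le.trans (by norm_num)).trans h3
  obtain ⟨S, h1, h2, _, h4⟩ := h0 s A hA N (by omega) hs h hh 1 (by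
      rw [Nat.cast_one]
      exact one_le_pow₀ hLog1) (fun _ => 1) (fun _ _ => 1) (fun _ => le_rfl) (by
      intro m t _ _
      rw [norm_one]
      exact one_le_pow₀ hLog1)
  refine ⟨S, h1, h2, fun ε hε X hX => ?_⟩
  obtain ⟨a, ha⟩ : ∃ a : Fin s → ℕ, a = fun i => h i + ∑ a ∈ S i, a := ⟨_, rfl⟩
  have har : ∀ i, h i + ∑ a ∈ S i, a = a i := fun i => by rw [ha]
  simp only [har] at h4 ⊢
  have h5 := Pool.Agent.Y885.pat_count (Icc 1 X) (fun _ => 1) (fun (j : Fin s) m => ((lam (m + a j) : ℤ) : ℝ)) univ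
    (by
      intro j _ m _
      unfold lam
      rcases neg_one_pow_eq_or ℤ (ArithmeticFunction.cardFactors (m + a j)) with h6 | h6 <;> rw [h6] <;> simp)
    (N / Real.log N ^ U) (by
      intro I _ hI
      have h6 := h4 0 I hI X (fun i _ => by rw [one_mul]; exact hX)
      refine le_trans (le_of_eq ?_) h6
      rw [← Real.norm_eq_abs, ← Complex.norm_real]
      congr 1
      push_cast
      apply sum_congr rfl
      intro m _
      congr 1
      apply prod_congr rfl
      intro j _
      rw [one_mul]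
      unfold lam Pool.Agent.Y885.laR
      push_cast
      rfl) (by positivity) (fun j => ((ε j : ℤ) : ℝ)) (by
      intro j _
      rcases hε j with h6 | h6 <;> simp [h6])
  refine le_trans (le_of_eq ?_) h5
  congr 2
  · unfold occ
    rw [card_filter]
    push_cast
    apply sum_congr rfl
    intro m _
    rw [one_mul]
    have h7 : ∀ j, ((((lam (m + a j) : ℤ) : ℝ) = ((ε j : ℤ) : ℝ)) ↔ lam (m + a j) = ε j) := fun j => Int.cast_inj
    simp only [h7]
    by_cases h8 : ∀ j, lam (m + a j) = ε j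
    · rw [if_pos h8, eq_comm]
      exact prod_eq_one fun j _ => if_pos (h8 j)
    · rw [if_neg h8, eq_comm]
      push Not at h8
      obtain ⟨j, hj⟩ := h8
      exact prod_eq_zero (mem_univ j) (if_neg hj)
  · rw [card_univ, Fintype.card_fin]
    simp

end Pool.Agent.Results.MP_4fffd4_nt.ElementsOfAnySets
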