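import Pool.Agent.Y585.SP.G

/-!
# Sets of shifts on which all sign patterns of the Liouville function occur

Let `λ` be the Liouville function.  Q1 asks whether all the `2^k` sign patterns occur at the shifts
`1, …, k`.  Here the `k` shifts are taken from an arbitrary prescribed set of integers.

1. For every finite set `A` of shifts, all but `C |A|^(k-1)` of the `k`-tuples `h` of elements of `A`,
   `C = 2^(k+1) / δ²`, have the property that each of the `2^k` sign patterns at `m + h_1, …, m + h_k`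
   has logarithmic frequency `2^(-k)` up to `δ`; and this in every window `(x/w, x]`, `w ≥ W(A)`, and
   relative to any bounded weight `g(m)`, which may depend on the window.
2. For every finite set `A`, in every such window and for every set `D` of `m` of logarithmic density
   at least `ρ` in the window, there are `h_1, …, h_k` in `A` for which the frequencies of the `2^k`
   patterns in `D` are `2^(-k)` up to `(1 - 2^(-k-1)) (ρ |A|)^(-1/2)`.
3. Every set of at least `4^k` shifts contains `k` shifts on which all the `2^k` sign patterns occur,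
   each with upper logarithmic density at least `4^(-k-1)`.
4. Every infinite set `A` of shifts contains `h_0 < h_1 < …` such that for every `k` all the `2^k`
   sign patterns at `m + h_0, …, m + h_(k-1)` occur with upper logarithmic density at least
   `(1 - δ) 2^(-k)` times that of `D`, with `m` in a given set `D` of positive upper logarithmic
   density.

Method.  By Tao's theorem on two-point correlations, over windows (`Pool.Agent.Y955.CH.tao_window`,
after `Pool.Agent.Y326`), the shifts of `λ` by the elements of `A` are nearly orthonormal for the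
logarithmic averages.  Bessel's inequality, applied to `g(m)` times the product over some of the
shifts, bounds the mean square over the last shift of all correlations of higher order at once.
-/

set_option autoImplicit false

namespace Pool.Agent.Results.MP_4fffd4_nt.ShatteredShifts

open Finset Filter

/-- The Liouville function. -/
def lam (n : ℕ) : ℤ := (-1) ^ ArithmeticFunction.cardFactors n

/-- `∑_{x/w < m ≤ x} g(m)/m`. -/
noncomputable def mass (w x : ℕ) (g : ℕ → ℝ) : ℝ := ∑ m ∈ Ioc (x / w) x, g m / m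

/-- The part of this sum over the `m` with `λ(m + h i) = ε i` for all `i`. -/
noncomputable def patternMass (w x : ℕ) (g : ℕ → ℝ) {k : ℕ} (h : Fin k → ℕ) (ε : Fin k → ℤ) : ℝ :=
  ∑ m ∈ (Ioc (x / w) x).filter (fun m => ∀ i, lam (m + h i) = ε i), g m / m

open Classical in
/-- Sign patterns of the Liouville function on shifts from arbitrary sets. -/
theorem result :
    -- (1) all but few of the tuples of elements of a finite set of shifts
    (∀ (k : ℕ) (δ : ℝ), 0 < δ → ∀ A : Finset ℕ, ∃ W : ℕ, ∀ w x : ℕ, W ≤ w → w ≤ x →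
      ∀ g : ℕ → ℝ, (∀ m, |g m| ≤ 1) →
        (((Fintype.piFinset fun _ : Fin k => A).filter fun h => ¬ ∀ ε : Fin k → ℤ,
          (∀ i, ε i = 1 ∨ ε i = -1) →
            |patternMass w x g h ε - (1 / 2) ^ k * mass w x g| ≤ δ * mass w x 1).card : ℝ) ≤
          2 ^ (k + 1) / δ ^ 2 * (A.card : ℝ) ^ (k - 1)) ∧
    -- (2) equidistribution for one tuple, relative to an arbitrary set `D`
    (∀ (k : ℕ) (ρ : ℝ), 0 < ρ → ∀ A : Finset ℕ, A.Nonempty → ∃ W : ℕ, ∀ w x : ℕ, W ≤ w → w ≤ x →
      ∀ D : Set ℕ, ρ * mass w x 1 ≤ mass w x (D.indicator 1) →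
      ∃ h : Fin k → ℕ, (∀ i, h i ∈ A) ∧ ∀ ε : Fin k → ℤ, (∀ i, ε i = 1 ∨ ε i = -1) →
        |patternMass w x (D.indicator 1) h ε - (1 / 2) ^ k * mass w x (D.indicator 1)| ≤
          (1 - (1 / 2) ^ (k + 1)) / Real.sqrt (ρ * A.card) * mass w x (D.indicator 1)) ∧
    -- (3) `4^k` shifts contain `k` shifts with all patterns
    (∀ (k : ℕ) (A : Finset ℕ), 4 ^ k ≤ A.card → ∃ H ⊆ A, H.card = k ∧ ∃ᶠ N : ℕ in atTop,
      ∀ ε : ℕ → ℤ, (∀ a, ε a = 1 ∨ ε a = -1) → Real.log N / 4 ^ (k + 1) ≤
        ∑ m ∈ (Icc 1 N).filter (fun m => ∀ a ∈ H, lam (m + a) = ε a), 1 / (m : ℝ)) ∧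
    -- (4) infinite sets of shifts
    (∀ A : Set ℕ, A.Infinite → ∀ (D : Set ℕ) (d : ℝ), 0 < d →
      (∃ᶠ N : ℕ in atTop, d * Real.log N ≤ ∑ m ∈ (Icc 1 N).filter (· ∈ D), 1 / (m : ℝ)) →
      ∀ δ : ℝ, 0 < δ → ∃ h : ℕ → ℕ, StrictMono h ∧ (∀ i, h i ∈ A) ∧ ∀ k : ℕ, ∃ᶠ N : ℕ in atTop,
        ∀ ε : ℕ → ℤ, (∀ i, ε i = 1 ∨ ε i = -1) → (1 - δ) * (d / 2 ^ k) * Real.log N ≤
          ∑ m ∈ (Icc 1 N).filter (fun m => m ∈ D ∧ ∀ i < k, lam (m + h i) = ε i),
            1 / (m : ℝ)) := by
  refine ⟨?_, ?_, ?_, ?_⟩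
  · intro k δ hδ A
    exact Pool.Agent.Y585.SP.part_one Pool.Agent.Y585.SP.twoPoint k δ hδ A
  · intro k ρ hρ A hA
    exact Pool.Agent.Y585.SP.part_two Pool.Agent.Y585.SP.twoPoint k ρ hρ A hA
  · intro k A hA
    obtain ⟨H, h1, h2, h3⟩ :=
      Pool.Agent.Y585.SP.part_two' Pool.Agent.Y585.SP.twoPoint k A hA
    refine ⟨H, h1, h2, h3.mono fun N hN ε hε => (hN ε hε).trans (le_of_eq ?_)⟩
    refine sum_congr ?_ fun m _ => rfl
    ext m
    simp only [mem_filter]
    rfl
  · intro A hA D d hd hD δ hδ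
    obtain ⟨h, h1, h2, h3⟩ :=
      Pool.Agent.Y585.SP.part_three Pool.Agent.Y585.SP.twoPoint A hA D d hd hD δ hδ
    refine ⟨h, h1, h2, fun k => (h3 k).mono fun N hN ε hε => (hN ε hε).trans (le_of_eq ?_)⟩
    refine sum_congr ?_ fun m _ => rfl
    ext m
    simp only [mem_filter]
    rfl

end Pool.Agent.Results.MP_4fffd4_nt.ShatteredShifts
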